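import Pool.Agent.Helper52.SX.Goals2
import Pool.Agent.Helper13.SXL.Prob

/-!
# Packet EXH of project SX: few assignments reach the depth `D`
-/

set_option autoImplicit false

namespace Pool.Agent.Helper13.SX

open Pool.Agent.Helper81.CC Pool.Agent.Helper78.DT Pool.Agent.Helper52.SX
open Pool.Agent.Helper78.JT (Clause coin)
open Pool.Agent.Helper13.SXL (aa aa_nonneg aa_succ aa_mono aa_three coin_update pr_split wd
  wd_sublist pr_false)
open scoped Classical

/-- The clause has a literal in `a`. -/
def ok (a : List (ℕ × Bool)) (C : Clause) : Bool := C.any fun p => a.contains p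

/-- The opposite literal is not in `a`. -/
def un (a : List (ℕ × Bool)) (p : ℕ × Bool) : Bool := !a.contains (p.1, !p.2)

theorem nx_cases (F : List Clause) (a : List (ℕ × Bool)) :
    (nx F a = 1 ∧ F.filter (fun C => !ok a C) = []) ∨
    (∃ C P, F.filter (fun C => !ok a C) = C :: P ∧
      ((nx F a = 0) ∨ ∃ p ∈ C, un a p = true ∧ nx F a = p.1 + 2)) := by
  have h0 : F.find? (fun C => !(C.any fun p => a.contains p)) =
      (F.filter (fun C => !ok a C)).head? := by
    rw [List.head?_filter]
    rfl
  unfold nx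
  rw [h0]
  rcases h : F.filter (fun C => !ok a C) with _ | ⟨C, P⟩
  · left
    exact ⟨rfl, rfl⟩
  · right
    refine ⟨C, P, rfl, ?_⟩
    rw [List.head?_cons]
    have h2 : C.find? (fun p => !a.contains (p.1, !p.2)) = C.find? (un a) := rfl
    simp only [h2]
    rcases h1 : C.find? (un a) with _ | p
    · left
      rfl
    · right
      exact ⟨p, List.mem_of_find?_eq_some h1, List.find?_some h1, rfl⟩

theorem un_iff (a : List (ℕ × Bool)) (p : ℕ × Bool) : un a p = true ↔ (p.1, !p.2) ∉ a := by
  unfold un
  simp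

theorem ok_false {a : List (ℕ × Bool)} {C : Clause} (h : ok a C = false) {p : ℕ × Bool}
    (hp : p ∈ C) : p ∉ a := by
  unfold ok at h
  rw [List.any_eq_false] at h
  have := h p hp
  simpa using this

theorem ok_of_mem {a : List (ℕ × Bool)} {C : Clause} {p : ℕ × Bool} (hp : p ∈ C) (h : p ∈ a) :
    ok a C = true := by
  unfold ok
  rw [List.any_eq_true]
  exact ⟨p, hp, by simpa using h⟩

theorem first_ok {F : List Clause} {a : List (ℕ × Bool)} {C : Clause} {P : List Clause}
    (h : F.filter (fun C => !ok a C) = C :: P) : C ∈ F ∧ ok a C = false := by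
  have h1 : C ∈ F.filter (fun C => !ok a C) := by rw [h]; exact List.mem_cons_self ..
  rw [List.mem_filter] at h1
  exact ⟨h1.1, by simpa using h1.2⟩

/-- The variable which is read has not been read. -/
theorem nx_un {F : List Clause} {a : List (ℕ × Bool)} (h : 2 ≤ nx F a) (b : Bool) :
    (nx F a - 2, b) ∉ a := by
  rcases nx_cases F a with ⟨h1, _⟩ | ⟨C, P, hC, h1 | ⟨p, hpC, hp, h1⟩⟩
  · omega
  · omega
  · rw [h1, Nat.add_sub_cancel]
    have h2 := ok_false (first_ok hC).2 hpC
    rw [un_iff] at hp
    obtain ⟨v, c⟩ := p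
    cases b <;> cases c <;> first | exact h2 | exact hp

/-- One step. -/
def stp {n : ℕ} (F : List Clause) (x : Fin n → Bool) (a : List (ℕ × Bool)) :
    List (ℕ × Bool) :=
  if 2 ≤ nx F a then a ++ [(nx F a - 2, coin x (nx F a - 2))] else a

theorem run_eq {n : ℕ} (F : List Clause) (x : Fin n → Bool) (D : ℕ) :
    run F x D = (stp F x)^[D] [] := rfl

theorem stp_mono {n : ℕ} (F : List Clause) (r : Fin n → Bool) (a : List (ℕ × Bool))
    (p : ℕ × Bool) (h : p ∈ a) : p ∈ stp F r a := by
  unfold stp
  split_ifs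
  · exact List.mem_append_left _ h
  · exact h

theorem adv_ind {n : ℕ} (F : List Clause) (r : Fin n → Bool) (v : Fin n) (c b : Bool) (D : ℕ) :
    ∀ a : List (ℕ × Bool), ((v : ℕ), b) ∈ a →
      (stp F (Function.update r v c))^[D] a = (stp F r)^[D] a := by
  induction D with
  | zero => intro a _; rfl
  | succ D ih =>
    intro a h
    rw [Function.iterate_succ_apply, Function.iterate_succ_apply]
    have h1 : stp F (Function.update r v c) a = stp F r a := by
      unfold stp
      split_ifs with h2
      · rw [coin_update]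
        intro h3
        have h4 := nx_un h2 b
        rw [h3] at h4
        exact h4 h
      · rfl
    rw [h1]
    exact ih _ (stp_mono F r a _ h)

/-- The potential. -/
noncomputable def pot (k : ℕ) (l : ℝ) (F : List Clause) (a : List (ℕ × Bool)) : ℝ :=
  match F.filter (fun C => !ok a C) with
  | [] => 1
  | C :: P => 2 * aa l (C.filter (un a)).length * 3 ^ wd k P

theorem pot_le {k : ℕ} {l : ℝ} (hl : 1 ≤ l) (hl2 : l ≤ 3 / 2) (hk : aa l k ≤ 1)
    (F : List Clause) (a : List (ℕ × Bool)) :
    pot k l F a ≤ 2 * 3 ^ wd k (F.filter (fun C => !ok a C)) := by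
  unfold pot
  rcases F.filter (fun C => !ok a C) with _ | ⟨C, P⟩
  · simp [wd]
  · simp only
    have h0 : (0 : ℝ) < 3 ^ wd k P := by positivity
    by_cases h : k < C.length
    · have h1 : wd k (C :: P) = wd k P + 1 := by
        unfold wd
        rw [List.filter_cons_of_pos (by simpa using h), List.length_cons]
      rw [h1, pow_succ]
      have := aa_three hl hl2 (C.filter (un a)).length
      nlinarith
    · have h1 : wd k (C :: P) = wd k P := by
        unfold wd
        rw [List.filter_cons_of_neg (by simpa using h)]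
      rw [h1]
      have h2 : (C.filter (un a)).length ≤ k := (List.length_filter_le _ _).trans (by omega)
      have := (aa_mono hl h2).trans hk
      nlinarith

theorem ok_app {a : List (ℕ × Bool)} {C : Clause} {q : ℕ × Bool} (h : ok a C = true) :
    ok (a ++ [q]) C = true := by
  unfold ok at h
  rw [List.any_eq_true] at h
  obtain ⟨p, hp, h⟩ := h
  refine ok_of_mem hp (List.mem_append_left _ ?_)
  simpa using h

theorem un_app {a : List (ℕ × Bool)} {p q : ℕ × Bool} (h : un (a ++ [q]) p = true) :
    un a p = true := by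
  rw [un_iff] at *
  exact fun h1 => h (List.mem_append_left _ h1)

theorem filter_ok_app (F : List Clause) (a : List (ℕ × Bool)) (q : ℕ × Bool) :
    F.filter (fun C => !ok (a ++ [q]) C) =
      (F.filter (fun C => !ok a C)).filter (fun C => !ok (a ++ [q]) C) := by
  rw [List.filter_filter]
  refine List.filter_congr fun C _ => ?_
  by_cases h : ok a C = true
  · rw [ok_app h, h]; rfl
  · have : ok a C = false := by simpa using h
    rw [this]
    simp

theorem step_true {k : ℕ} {l : ℝ} (hl : 1 ≤ l) (hl2 : l ≤ 3 / 2) (hk : aa l k ≤ 1)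
    {F : List Clause} {a : List (ℕ × Bool)} {C : Clause} {P : List Clause}
    (hP : F.filter (fun C => !ok a C) = C :: P) {p : ℕ × Bool} (hp : p ∈ C) :
    pot k l F (a ++ [p]) ≤ 2 * 3 ^ wd k P := by
  refine (pot_le hl hl2 hk F (a ++ [p])).trans ?_
  have h1 : (F.filter (fun C => !ok (a ++ [p]) C)).Sublist P := by
    rw [filter_ok_app, hP, List.filter_cons_of_neg]
    · exact List.filter_sublist
    · have : ok (a ++ [p]) C = true := ok_of_mem hp (by simp)
      simp [this]
  have h2 : (3 : ℝ) ^ wd k (F.filter (fun C => !ok (a ++ [p]) C)) ≤ 3 ^ wd k P :=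
    pow_le_pow_right₀ (by norm_num) (wd_sublist k h1)
  linarith

theorem step_false {k : ℕ} {l : ℝ} (hl : 1 ≤ l)
    {F : List Clause} {a : List (ℕ × Bool)} {C : Clause} {P : List Clause}
    (hP : F.filter (fun C => !ok a C) = C :: P)
    (hcl : ∀ p ∈ C, (p.1, !p.2) ∉ C) {p : ℕ × Bool} (hp : p ∈ C) (hu : un a p = true) :
    pot k l F (a ++ [(p.1, !p.2)]) ≤
      2 * aa l ((C.filter (un a)).length - 1) * 3 ^ wd k P := by
  have hC : ok a C = false := (first_ok hP).2
  have hC' : ok (a ++ [(p.1, !p.2)]) C = false := by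
    unfold ok
    rw [List.any_eq_false]
    intro q hq h
    have h1 : q ∈ a ++ [(p.1, !p.2)] := by simpa using h
    rw [List.mem_append, List.mem_singleton] at h1
    rcases h1 with h1 | h1
    · exact ok_false hC hq h1
    · rw [h1] at hq
      exact hcl p hp hq
  unfold pot
  rw [filter_ok_app, hP, List.filter_cons_of_pos (by simp [hC'])]
  simp only
  have h1 : (C.filter (un (a ++ [(p.1, !p.2)]))).length ≤ (C.filter (un a)).length - 1 := by
    have h2 : (C.filter (un (a ++ [(p.1, !p.2)]))).length < (C.filter (un a)).length := by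
      have h3 : C.filter (un (a ++ [(p.1, !p.2)])) =
          (C.filter (un a)).filter (un (a ++ [(p.1, !p.2)])) := by
        rw [List.filter_filter]
        refine List.filter_congr fun q _ => ?_
        by_cases h4 : un (a ++ [(p.1, !p.2)]) q = true
        · rw [h4, un_app h4]; rfl
        · have : un (a ++ [(p.1, !p.2)]) q = false := by simpa using h4
          rw [this]; rfl
      rw [h3]
      refine List.length_filter_lt_length_iff_exists.2 ⟨p, ?_, ?_⟩
      · rw [List.mem_filter]
        exact ⟨hp, hu⟩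
      · rw [un_iff]
        intro h4
        apply h4
        simp
    omega
  have h2 := aa_mono hl h1
  have h3 : (3 : ℝ) ^ wd k (P.filter fun C => !ok (a ++ [(p.1, !p.2)]) C) ≤ 3 ^ wd k P :=
    pow_le_pow_right₀ (by norm_num) (wd_sublist k List.filter_sublist)
  have h4 := aa_nonneg hl ((C.filter (un (a ++ [(p.1, !p.2)]))).length)
  have h5 : (0 : ℝ) < 3 ^ wd k P := by positivity
  calc 2 * aa l (C.filter (un (a ++ [(p.1, !p.2)]))).length *
        3 ^ wd k (P.filter fun C => !ok (a ++ [(p.1, !p.2)]) C)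
      ≤ 2 * aa l (C.filter (un (a ++ [(p.1, !p.2)]))).length * 3 ^ wd k P := by
        refine mul_le_mul_of_nonneg_left h3 (by linarith)
    _ ≤ _ := by
        refine mul_le_mul_of_nonneg_right (by linarith) h5.le

theorem exh_bound {n k : ℕ} {l : ℝ} (hl : 1 ≤ l) (hl2 : l ≤ 3 / 2) (hk : aa l k ≤ 1)
    (F : List Clause) (hF : Cln n F) (D : ℕ) : ∀ a : List (ℕ × Bool),
    l ^ D * pr (fun r : Fin n → Bool => 2 ≤ nx F ((stp F r)^[D] a)) ≤ pot k l F a := by
  have hpot0 : ∀ a, 0 ≤ pot k l F a := by
    intro a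
    unfold pot
    rcases F.filter (fun C => !ok a C) with _ | ⟨C, P⟩
    · simp
    · simp only
      have := aa_nonneg hl (C.filter (un a)).length
      positivity
  induction D with
  | zero =>
    intro a
    rw [pow_zero, one_mul]
    simp only [Function.iterate_zero, id]
    by_cases h : 2 ≤ nx F a
    · have h1 := pr_le_one (fun _ : Fin n → Bool => 2 ≤ nx F a)
      refine h1.trans ?_
      rcases nx_cases F a with ⟨h2, _⟩ | ⟨C, P, hP, h2 | ⟨p, hp, hu, h2⟩⟩
      · omega
      · omega
      · unfold pot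
        rw [hP]
        simp only
        have h3 : 1 ≤ (C.filter (un a)).length :=
          List.length_pos_of_mem (List.mem_filter.2 ⟨hp, hu⟩)
        have h4 := aa_mono hl h3
        have h5 : aa l 1 = l / 2 := by rw [aa, aa]; ring
        have h6 : (1 : ℝ) ≤ 3 ^ wd k P := one_le_pow₀ (by norm_num)
        rw [h5] at h4
        nlinarith
    · have h1 : pr (fun _ : Fin n → Bool => 2 ≤ nx F a) = 0 := pr_false _ fun _ => h
      rw [h1]
      exact hpot0 a
  | succ D ih =>
    intro a
    by_cases h : 2 ≤ nx F a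
    · rcases nx_cases F a with ⟨h2, _⟩ | ⟨C, P, hP, h2 | ⟨p, hp, hu, h2⟩⟩
      · omega
      · omega
      · have hC := hF C (first_ok hP).1
        have hv : p.1 < n := (hC.2 p hp).1
        have hstep : ∀ r : Fin n → Bool, (stp F r)^[D + 1] a =
            (stp F r)^[D] (a ++ [(p.1, r ⟨p.1, hv⟩)]) := by
          intro r
          rw [Function.iterate_succ_apply]
          congr 1
          unfold stp
          rw [if_pos h, h2, Nat.add_sub_cancel]
          unfold Pool.Agent.Helper78.JT.coin
          rw [dif_pos hv]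
        have hsp := pr_split (⟨p.1, hv⟩ : Fin n)
          (fun b r => 2 ≤ nx F ((stp F r)^[D] (a ++ [(p.1, b)]))) (by
            intro b r c
            rw [adv_ind F r ⟨p.1, hv⟩ c b D (a ++ [(p.1, b)]) (by simp)])
        have h3 : pr (fun r : Fin n → Bool => 2 ≤ nx F ((stp F r)^[D + 1] a)) =
            (pr (fun r : Fin n → Bool => 2 ≤ nx F ((stp F r)^[D] (a ++ [(p.1, true)]))) +
              pr (fun r : Fin n → Bool => 2 ≤ nx F ((stp F r)^[D] (a ++ [(p.1, false)])))) / 2 := by
          rw [← hsp]
          exact pr_congr fun r => by rw [hstep r]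
        have h4 : pr (fun r : Fin n → Bool => 2 ≤ nx F ((stp F r)^[D + 1] a)) =
            (pr (fun r : Fin n → Bool => 2 ≤ nx F ((stp F r)^[D] (a ++ [p]))) +
              pr (fun r : Fin n → Bool =>
                2 ≤ nx F ((stp F r)^[D] (a ++ [(p.1, !p.2)])))) / 2 := by
          rw [h3]
          obtain ⟨v, b⟩ := p
          cases b
          · simp only [Bool.not_false]
            ring
          · simp only [Bool.not_true]
        have h5 := (ih (a ++ [p])).trans (step_true hl hl2 hk hP hp)
        have h6 := (ih (a ++ [(p.1, !p.2)])).trans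
          (step_false hl hP (fun p hp => (hC.2 p hp).2) hp hu)
        rw [h4]
        have h7 : pot k l F a = 2 * aa l (C.filter (un a)).length * 3 ^ wd k P := by
          unfold pot
          rw [hP]
        have h8 : 1 ≤ (C.filter (un a)).length :=
          List.length_pos_of_mem (List.mem_filter.2 ⟨hp, hu⟩)
        have h9 : aa l (C.filter (un a)).length =
            l / 2 * (1 + aa l ((C.filter (un a)).length - 1)) := by
          obtain ⟨j, hj⟩ : ∃ j, (C.filter (un a)).length = j + 1 :=
            ⟨(C.filter (un a)).length - 1, by omega⟩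
          rw [hj, aa, Nat.add_sub_cancel]
        rw [h7, h9, pow_succ]
        have h10 : (0 : ℝ) ≤ l / 2 := by linarith
        calc l ^ D * l * ((pr (fun r : Fin n → Bool => 2 ≤ nx F ((stp F r)^[D] (a ++ [p]))) +
              pr (fun r : Fin n → Bool =>
                2 ≤ nx F ((stp F r)^[D] (a ++ [(p.1, !p.2)])))) / 2)
            = l / 2 * (l ^ D * pr (fun r : Fin n → Bool =>
                2 ≤ nx F ((stp F r)^[D] (a ++ [p]))) + l ^ D * pr (fun r : Fin n → Bool =>
                2 ≤ nx F ((stp F r)^[D] (a ++ [(p.1, !p.2)])))) := by ring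
          _ ≤ l / 2 * (2 * 3 ^ wd k P +
                2 * aa l ((C.filter (un a)).length - 1) * 3 ^ wd k P) :=
              mul_le_mul_of_nonneg_left (add_le_add h5 h6) h10
          _ = _ := by ring
    · have h1 : ∀ r : Fin n → Bool, (stp F r)^[D + 1] a = a := by
        intro r
        have h2 : stp F r a = a := by
          unfold stp
          rw [if_neg h]
        exact Function.iterate_fixed h2 _
      have h2 : pr (fun r : Fin n → Bool => 2 ≤ nx F ((stp F r)^[D + 1] a)) = 0 :=
        pr_false _ fun r => by rw [h1 r]; exact h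
      rw [h2, mul_zero]
      exact hpot0 a

/-- `aa l j` for `l = 1 / A`. -/
theorem aa_sum {A : ℝ} (hA : 0 < A) (hA1 : A ≤ 1) (j : ℕ) :
    aa (1 / A) j ≤ (1 - (1 / 2) ^ j) / A ^ j := by
  induction j with
  | zero => simp [aa]
  | succ j ih =>
    rw [aa]
    have hp : 0 < A ^ j := by positivity
    have h1 : (1 : ℝ) ≤ 1 / A ^ j := by
      rw [le_div_iff₀ hp, one_mul]
      exact pow_le_one₀ hA.le hA1
    have h2 : 1 / A / 2 * (1 + aa (1 / A) j) ≤
        1 / A / 2 * (1 / A ^ j + (1 - (1 / 2) ^ j) / A ^ j) := by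
      refine mul_le_mul_of_nonneg_left (by linarith) (by positivity)
    refine h2.trans (le_of_eq ?_)
    rw [pow_succ, pow_succ]
    field_simp
    ring

theorem EXH : ExhStmt := by
  intro n k F D hk hF
  set A : ℝ := 1 - 1 / ((k : ℝ) * 2 ^ k) with hAdef
  have hk0 : (0 : ℝ) < k := by
    have : 0 < k := by omega
    exact_mod_cast this
  have hk2 : (2 : ℝ) ≤ k := by exact_mod_cast hk
  have h4 : (4 : ℝ) ≤ 2 ^ k := by
    calc (4 : ℝ) = 2 ^ 2 := by norm_num
      _ ≤ 2 ^ k := pow_le_pow_right₀ (by norm_num) hk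
  have h8 : (8 : ℝ) ≤ (k : ℝ) * 2 ^ k := by nlinarith
  have hinv : 1 / ((k : ℝ) * 2 ^ k) ≤ 1 / 8 := one_div_le_one_div_of_le (by norm_num) h8
  have hinv0 : 0 < 1 / ((k : ℝ) * 2 ^ k) := by positivity
  have hA : 7 / 8 ≤ A := by rw [hAdef]; linarith
  have hA1 : A ≤ 1 := by rw [hAdef]; linarith
  have hA0 : 0 < A := by linarith
  have hbern : 1 - (1 / 2 : ℝ) ^ k ≤ A ^ k := by
    have h1 := one_add_mul_le_pow (a := -(1 / ((k : ℝ) * 2 ^ k))) (by linarith) k
    have h2 : 1 + (k : ℝ) * -(1 / ((k : ℝ) * 2 ^ k)) = 1 - (1 / 2) ^ k := by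
      rw [one_div_pow]
      field_simp
      ring
    rw [h2] at h1
    have h3 : (1 : ℝ) + -(1 / ((k : ℝ) * 2 ^ k)) = A := by rw [hAdef]; ring
    rwa [h3] at h1
  have hl : 1 ≤ 1 / A := by rw [le_div_iff₀ hA0]; linarith
  have hl2 : 1 / A ≤ 3 / 2 := by rw [div_le_iff₀ hA0]; linarith
  have haa : aa (1 / A) k ≤ 1 := by
    refine (aa_sum hA0 hA1 k).trans ?_
    rw [div_le_one (by positivity)]
    exact hbern
  have h1 := (exh_bound hl hl2 haa F hF D []).trans (pot_le hl hl2 haa F [])
  have h2 : (3 : ℝ) ^ wd k (F.filter (fun C => !ok [] C)) ≤ 3 ^ wd k F :=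
    pow_le_pow_right₀ (by norm_num) (wd_sublist k List.filter_sublist)
  have h3 : (1 / A) ^ D * pr (fun x : Fin n → Bool => 2 ≤ nx F (run F x D)) ≤ 2 * 3 ^ wd k F :=
    h1.trans (by linarith)
  have hAD : 0 < A ^ D := by positivity
  have h5 : pr (fun x : Fin n → Bool => 2 ≤ nx F (run F x D)) =
      ((1 / A) ^ D * pr (fun x : Fin n → Bool => 2 ≤ nx F (run F x D))) * A ^ D := by
    rw [one_div_pow]
    field_simp
  rw [h5]
  exact mul_le_mul_of_nonneg_right h3 hAD.le

end Pool.Agent.Helper13.SX
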